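import Mathlib

/-!
# Cycles of the heavy-ball method on the line: the sorting pattern `ρ` is not universal

For `K = 5`, `μ = 1`, `L = 7 / 2`, `γ = 1`, `β = 4 / 5` the heavy-ball method has a cycle of five
distinct points on a function of the class `F_{μ,L}`, but no `5`-cycle on any function of the class
has the pattern `ρ`. These parameters lie in the stability region
`0 < β < 1`, `0 < γ L < 2 (1 + β)`.

The function is `f(x) = - 7652 x + (9 / 8) x² + (5 / 8) x |x|` and the cycle is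
`(-751, 3264, 2704, 444, 4734)`.
-/

set_option autoImplicit false

namespace Pool.Agent.Results.MP_8c4df5_an.FiveCycle

/-- The class `F_{μ,L}`: differentiable, `μ`-strongly convex, with `L`-Lipschitz derivative. -/
def InClass (μ L : ℝ) (f : ℝ → ℝ) : Prop :=
  Differentiable ℝ f ∧ StrongConvexOn Set.univ μ f ∧
    ∀ x y : ℝ, |deriv f x - deriv f y| ≤ L * |x - y|

/-- `x` (indices modulo `K`) is a `K`-cycle of the heavy-ball method with step size `γ` and momentum
parameter `β` on `f`. -/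
def IsCycle (γ β : ℝ) (f : ℝ → ℝ) (K : ℕ) (x : ZMod K → ℝ) : Prop :=
  (∃ i j, x i ≠ x j) ∧
    ∀ i, x (i + 1) = x i - γ * deriv f (x i) + β * (x i - x (i - 1))

/-- The function `ρ` on `{0, …, K - 1}`. -/
def rho (K j : ℕ) : ℕ := if j = 0 then 0 else if j ≤ K / 2 then 2 * j - 1 else 2 * (K - j)

/-- The cycle has pattern `ρ`: `x_i ≤ x_j` whenever `ρ(i) < ρ(j)`. -/
def HasPattern (K : ℕ) (x : ZMod K → ℝ) : Prop :=
  ∀ i j : ZMod K, rho K i.val < rho K j.val → x i ≤ x j

/-- the derivative of a function of the class has difference quotients between `μ` and `L` -/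
theorem slopes {μ L : ℝ} {f : ℝ → ℝ} (h : InClass μ L f) {a b : ℝ} (hab : a ≤ b) :
    μ * (b - a) ≤ deriv f b - deriv f a ∧ deriv f b - deriv f a ≤ L * (b - a) := by
  obtain ⟨h1, h2, h3⟩ := h
  constructor
  · rw [strongConvexOn_iff_convex] at h2
    have hd : ∀ x, HasDerivAt (fun x : ℝ => f x - μ / 2 * ‖x‖ ^ 2) (deriv f x - μ * x) x := by
      intro x
      have e : (fun x : ℝ => f x - μ / 2 * ‖x‖ ^ 2) = fun x : ℝ => f x - μ / 2 * x ^ 2 := by
        funext y
        rw [Real.norm_eq_abs, sq_abs]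
      rw [e]
      have h5 : HasDerivAt (fun x : ℝ => x ^ 2) (2 * x) x := by
        simpa using hasDerivAt_pow 2 x
      have h4 := ((h1 x).hasDerivAt).sub (h5.const_mul (μ / 2))
      have e2 : deriv f x - μ / 2 * (2 * x) = deriv f x - μ * x := by ring
      rw [e2] at h4
      exact h4
    have h5 := h2.monotoneOn_deriv (fun x _ => (hd x).differentiableAt) (Set.mem_univ a)
      (Set.mem_univ b) hab
    rw [(hd a).deriv, (hd b).deriv] at h5
    linarith
  · have h4 := h3 b a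
    rw [abs_of_nonneg (by linarith : (0 : ℝ) ≤ b - a)] at h4
    exact (le_abs_self _).trans h4

/-- no cycle has the pattern -/
theorem no_pattern (f : ℝ → ℝ) (x : ZMod 5 → ℝ) (hf : InClass 1 (7 / 2) f)
    (hx : IsCycle 1 (4 / 5) f 5 x) : ¬ HasPattern 5 x := by
  intro hp
  obtain ⟨⟨i, j, hij⟩, hc⟩ := hx
  have e0 := hc 0
  have e1 := hc 1
  have e2 := hc 2
  have e3 := hc 3
  have e4 := hc 4
  have z0 : (0 : ZMod 5) + 1 = 1 := by decide
  have z1 : (1 : ZMod 5) + 1 = 2 := by decide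
  have z2 : (2 : ZMod 5) + 1 = 3 := by decide
  have z3 : (3 : ZMod 5) + 1 = 4 := by decide
  have z4 : (4 : ZMod 5) + 1 = 0 := by decide
  have w0 : (0 : ZMod 5) - 1 = 4 := by decide
  have w1 : (1 : ZMod 5) - 1 = 0 := by decide
  have w2 : (2 : ZMod 5) - 1 = 1 := by decide
  have w3 : (3 : ZMod 5) - 1 = 2 := by decide
  have w4 : (4 : ZMod 5) - 1 = 3 := by decide
  rw [z0, w0] at e0
  rw [z1, w1] at e1
  rw [z2, w2] at e2
  rw [z3, w3] at e3
  rw [z4, w4] at e4
  have p1 : x 0 ≤ x 1 := hp 0 1 (by decide)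
  have p2 : x 1 ≤ x 4 := hp 1 4 (by decide)
  have p3 : x 4 ≤ x 2 := hp 4 2 (by decide)
  have p4 : x 2 ≤ x 3 := hp 2 3 (by decide)
  obtain ⟨s1, t1⟩ := slopes hf p1
  obtain ⟨s2, t2⟩ := slopes hf p2
  obtain ⟨s3, t3⟩ := slopes hf p3
  obtain ⟨s4, t4⟩ := slopes hf p4
  have key : x 3 ≤ x 0 := by linarith
  have a1 : x 1 = x 0 := by linarith
  have a2 : x 2 = x 0 := by linarith
  have a3 : x 3 = x 0 := by linarith
  have a4 : x 4 = x 0 := by linarith
  apply hij
  have hall : ∀ k : ZMod 5, x k = x 0 := by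
    intro k
    have hk : k = 0 ∨ k = 1 ∨ k = 2 ∨ k = 3 ∨ k = 4 := by
      revert k
      decide
    rcases hk with rfl | rfl | rfl | rfl | rfl
    · rfl
    · exact a1
    · exact a2
    · exact a3
    · exact a4
  rw [hall i, hall j]

/-- The function. -/
noncomputable def fn (x : ℝ) : ℝ := -7652 * x + 9 / 8 * x ^ 2 + 5 / 8 * (x * |x|)

theorem hasDerivAt_mul_abs (x : ℝ) : HasDerivAt (fun x : ℝ => x * |x|) (2 * |x|) x := by
  rcases lt_trichotomy x 0 with h | h | h
  · have h0 : HasDerivAt (fun y : ℝ => y ^ 2) (2 * x) x := by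
      simpa using hasDerivAt_pow 2 x
    have h1 : HasDerivAt (fun y : ℝ => -(y ^ 2)) (-(2 * x)) x := h0.neg
    rw [abs_of_neg h, show 2 * -x = -(2 * x) by ring]
    refine h1.congr_of_eventuallyEq ?_
    filter_upwards [Iio_mem_nhds h] with y hy
    rw [abs_of_neg hy]
    ring
  · subst h
    rw [abs_zero, mul_zero, hasDerivAt_iff_isLittleO]
    simp only [zero_mul, sub_zero, smul_zero, mul_zero]
    have h1 : (fun x' : ℝ => |x'|) =o[nhds 0] fun _ => (1 : ℝ) := by
      rw [Asymptotics.isLittleO_one_iff]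
      have h3 := (continuous_abs : Continuous fun x : ℝ => |x|).tendsto 0
      rwa [abs_zero] at h3
    have h2 := (Asymptotics.isBigO_refl (fun x' : ℝ => x') (nhds 0)).mul_isLittleO h1
    simpa using h2
  · have h1 : HasDerivAt (fun y : ℝ => y ^ 2) (2 * x) x := by
      simpa using hasDerivAt_pow 2 x
    rw [abs_of_pos h]
    refine h1.congr_of_eventuallyEq ?_
    filter_upwards [Ioi_mem_nhds h] with y hy
    rw [abs_of_pos hy]
    ring

theorem hasDerivAt_fn (x : ℝ) : HasDerivAt fn (-7652 + 9 / 4 * x + 5 / 4 * |x|) x := by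
  have h1 : HasDerivAt (fun y : ℝ => y ^ 2) (2 * x) x := by
    simpa using hasDerivAt_pow 2 x
  have h2 := (((hasDerivAt_id x).const_mul (-7652)).add (h1.const_mul (9 / 8))).add
    ((hasDerivAt_mul_abs x).const_mul (5 / 8))
  have e : (-7652 : ℝ) * 1 + 9 / 8 * (2 * x) + 5 / 8 * (2 * |x|) =
      -7652 + 9 / 4 * x + 5 / 4 * |x| := by ring
  rw [e] at h2
  exact h2

theorem deriv_fn (x : ℝ) : deriv fn x = -7652 + 9 / 4 * x + 5 / 4 * |x| := (hasDerivAt_fn x).deriv

theorem fn_inClass : InClass 1 (7 / 2) fn := by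
  refine ⟨fun x => (hasDerivAt_fn x).differentiableAt, ?_, ?_⟩
  · rw [strongConvexOn_iff_convex]
    have hd : ∀ x, HasDerivAt (fun x : ℝ => fn x - 1 / 2 * ‖x‖ ^ 2)
        (-7652 + 5 / 4 * x + 5 / 4 * |x|) x := by
      intro x
      have e : (fun x : ℝ => fn x - 1 / 2 * ‖x‖ ^ 2) = fun x : ℝ => fn x - 1 / 2 * x ^ 2 := by
        funext y
        rw [Real.norm_eq_abs, sq_abs]
      rw [e]
      have h5 : HasDerivAt (fun x : ℝ => x ^ 2) (2 * x) x := by
        simpa using hasDerivAt_pow 2 x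
      have h4 := (hasDerivAt_fn x).sub (h5.const_mul (1 / 2))
      have e2 : -7652 + 9 / 4 * x + 5 / 4 * |x| - 1 / 2 * (2 * x) =
          -7652 + 5 / 4 * x + 5 / 4 * |x| := by ring
      rw [e2] at h4
      exact h4
    refine MonotoneOn.convexOn_of_deriv convex_univ
      (fun x _ => (hd x).continuousAt.continuousWithinAt)
      (fun x _ => (hd x).differentiableAt.differentiableWithinAt) ?_
    intro a _ b _ hab
    rw [(hd a).deriv, (hd b).deriv]
    have h1 : |a| ≤ |b| + |a - b| := by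
      have := abs_add_le b (a - b)
      rwa [add_sub_cancel] at this
    have h2 : |a - b| = b - a := by rw [abs_sub_comm, abs_of_nonneg (by linarith)]
    rw [h2] at h1
    linarith
  · intro x y
    rw [deriv_fn, deriv_fn]
    have e : -7652 + 9 / 4 * x + 5 / 4 * |x| - (-7652 + 9 / 4 * y + 5 / 4 * |y|) =
        9 / 4 * (x - y) + 5 / 4 * (|x| - |y|) := by ring
    rw [e]
    have h1 := abs_add_le (9 / 4 * (x - y)) (5 / 4 * (|x| - |y|))
    rw [abs_mul, abs_mul] at h1
    have h2 := abs_abs_sub_abs_le x y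
    have h3 : |(9 / 4 : ℝ)| = 9 / 4 := abs_of_pos (by norm_num)
    have h4 : |(5 / 4 : ℝ)| = 5 / 4 := abs_of_pos (by norm_num)
    rw [h3, h4] at h1
    linarith

/-- The cycle. -/
def pt : ZMod 5 → ℝ := ![-751, 3264, 2704, 444, 4734]

theorem pt_injective : Function.Injective pt := by
  have h : ∀ i j : Fin 5, (![-751, 3264, 2704, 444, 4734] : Fin 5 → ℤ) i =
      (![-751, 3264, 2704, 444, 4734] : Fin 5 → ℤ) j → i = j := by decide
  intro i j hij
  apply h i j
  have e : ∀ k : Fin 5, pt k = (((![-751, 3264, 2704, 444, 4734] : Fin 5 → ℤ) k : ℤ) : ℝ) := by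
    intro k
    fin_cases k <;> simp [pt]
  have h2 := e i
  have h3 := e j
  have h4 : pt i = pt j := hij
  rw [h2, h3] at h4
  exact_mod_cast h4

theorem pt_cycle : IsCycle 1 (4 / 5) fn 5 pt := by
  refine ⟨⟨0, 1, fun h => ?_⟩, ?_⟩
  · have := pt_injective h
    revert this
    decide
  · intro i
    rw [deriv_fn]
    have hi : i = 0 ∨ i = 1 ∨ i = 2 ∨ i = 3 ∨ i = 4 := by
      revert i
      decide
    have q0 : pt 0 = -751 := rfl
    have q1 : pt 1 = 3264 := rfl
    have q2 : pt 2 = 2704 := rfl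
    have q3 : pt 3 = 444 := rfl
    have q4 : pt 4 = 4734 := rfl
    have z0 : (0 : ZMod 5) + 1 = 1 := by decide
    have z1 : (1 : ZMod 5) + 1 = 2 := by decide
    have z2 : (2 : ZMod 5) + 1 = 3 := by decide
    have z3 : (3 : ZMod 5) + 1 = 4 := by decide
    have z4 : (4 : ZMod 5) + 1 = 0 := by decide
    have w0 : (0 : ZMod 5) - 1 = 4 := by decide
    have w1 : (1 : ZMod 5) - 1 = 0 := by decide
    have w2 : (2 : ZMod 5) - 1 = 1 := by decide
    have w3 : (3 : ZMod 5) - 1 = 2 := by decide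
    have w4 : (4 : ZMod 5) - 1 = 3 := by decide
    rcases hi with rfl | rfl | rfl | rfl | rfl
    · rw [z0, w0, q0, q1, q4]; norm_num
    · rw [z1, w1, q0, q1, q2]; norm_num
    · rw [z2, w2, q1, q2, q3]; norm_num
    · rw [z3, w3, q2, q3, q4]; norm_num
    · rw [z4, w4, q3, q4, q0]; norm_num

/-- The statement of the problem is false. For `K = 5`, `μ = 1`, `L = 7 / 2`, `γ = 1`, `β = 4 / 5`
(so `0 < β < 1` and `γ L < 2 (1 + β)`) there is a cycle of five distinct points on a function of the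
class, but no cycle on any function of the class has the pattern `ρ`. -/
theorem result :
    (¬ ∀ K : ℕ, 3 ≤ K → ∀ μ L γ β : ℝ, 0 < μ → μ ≤ L → 0 < γ →
      (∃ f, InClass μ L f ∧ ∃ x, IsCycle γ β f K x) →
        ∃ f, InClass μ L f ∧ ∃ x, IsCycle γ β f K x ∧ HasPattern K x) ∧
    ∃ μ L γ β : ℝ, 0 < μ ∧ μ < L ∧ 0 < γ ∧ 0 < β ∧ β < 1 ∧ γ * L < 2 * (1 + β) ∧
      (∃ f, InClass μ L f ∧ ∃ x, IsCycle γ β f 5 x ∧ Function.Injective x) ∧
      ∀ f, InClass μ L f → ∀ x, IsCycle γ β f 5 x → ¬ HasPattern 5 x := by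
  constructor
  · intro h
    obtain ⟨f, hf, x, hx, hp⟩ := h 5 (by norm_num) 1 (7 / 2) 1 (4 / 5) (by norm_num) (by norm_num)
      (by norm_num) ⟨fn, fn_inClass, pt, pt_cycle⟩
    exact no_pattern f x hf hx hp
  · exact ⟨1, 7 / 2, 1, 4 / 5, by norm_num, by norm_num, by norm_num, by norm_num, by norm_num,
      by norm_num, ⟨fn, fn_inClass, pt, pt_cycle, pt_injective⟩,
      fun f hf x hx => no_pattern f x hf hx⟩

end Pool.Agent.Results.MP_8c4df5_an.FiveCycle
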